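import Pool.Agent.J4H32.MV.Main2

/-!
# The Hardy–Littlewood asymptotic formula for all but `X ^ (k - o (1))` vectors of shifts, for `X` in long ranges

Method (helper32, with parts by helpers 6, 19, 45, 57, 68, 79, 81): at a scale `l` without zeros of Dirichlet `L`-functions of
conductor up to `e ^ l` near one, the primes in the residue classes modulo a primorial `W` have a simple model, a truncated
singular series, up to a function which is small in mean square on the major arcs and uniformly small on the minor arcs. The
product of `k + 1` shifted primes is compared with the product of the models by telescoping and Bessel's inequality in each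
shift. The correlations of the model are computed for all shifts whose differences have few prime factors above `w`. The
formula is proved in each residue class modulo `W` (lower and upper bounds by short shifts of the window) and summed.
-/

set_option autoImplicit false

namespace Pool.Agent.Results.MP_68a45e_nt.AsymptoticFewExceptions

open Finset Filter

/-- The number of the primes `p` with `X < p ≤ 2 X` for which all the `p + m_i` are prime. -/
noncomputable def count {k : ℕ} (m : Fin k → ℕ) (X : ℕ) : ℕ :=
  ((Ioc X (2 * X)).filter (fun p => p.Prime ∧ ∀ i, (p + m i).Prime)).card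

/-- The constellation `p, p + m_1, ..., p + m_k` is admissible: for every prime `q` there is an integer `r` such that `q`
divides none of `r, r + m_1, ..., r + m_k`. -/
def Admissible {k : ℕ} (m : Fin k → ℕ) : Prop := ∀ q : ℕ, q.Prime → ∃ r : ℕ, ¬ q ∣ r ∧ ∀ i, ¬ q ∣ r + m i

/-- The number `w (q)` of the residue classes modulo `q` occupied by `0, m_1, ..., m_k`. -/
def classes {k : ℕ} (m : Fin k → ℕ) (q : ℕ) : ℕ := (insert 0 (univ.image (fun i => m i % q))).card

/-- The factor at `q` of the singular series. -/
noncomputable def factor {k : ℕ} (m : Fin k → ℕ) (q : ℕ) : ℝ := (1 - (classes m q : ℝ) / q) / (1 - 1 / (q : ℝ)) ^ (k + 1)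

/-- The number expected by Hardy and Littlewood, `C X / (log X) ^ (k + 1)` with the singular series `C`. -/
noncomputable def expected {k : ℕ} (m : Fin k → ℕ) (X : ℕ) : ℝ :=
  (∏' q : Nat.Primes, factor m q) * X / Real.log X ^ (k + 1)

/-- The exceptional vectors: admissible, with entries in `[1, X]`, for which the number of the primes `p` in `(X, 2 X]` with all
`p + m_i` prime differs from the expected number by more than its `(log log X) ^ B`-th part. -/
def exceptional (k B X : ℕ) : Set (Fin k → ℕ) :=
  {m | (∀ i, 1 ≤ m i ∧ m i ≤ X) ∧ Admissible m ∧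
    1 / Real.log (Real.log X) ^ B * expected m X < |(count m X : ℝ) - expected m X|}

theorem classes_eq {k : ℕ} (m : Fin k → ℕ) (q : ℕ) : classes m q = Pool.Agent.J4H32.MV.nuP (Pool.Agent.J4H32.MV.aa m) q := by
  unfold classes Pool.Agent.J4H32.MV.nuP
  congr 1
  ext x
  rw [Finset.mem_insert, Finset.mem_image, Finset.mem_image]
  constructor
  · rintro (rfl | ⟨i, _, rfl⟩)
    · exact ⟨0, Finset.mem_univ _, by simp [Pool.Agent.J4H32.MV.aa]⟩
    · exact ⟨i.succ, Finset.mem_univ _, by simp [Pool.Agent.J4H32.MV.aa]⟩
  · rintro ⟨j, _, rfl⟩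
    refine Fin.cases ?_ (fun i => ?_) j
    · exact Or.inl (by simp [Pool.Agent.J4H32.MV.aa])
    · exact Or.inr ⟨i, Finset.mem_univ _, by simp [Pool.Agent.J4H32.MV.aa]⟩

theorem factor_eq {k : ℕ} (m : Fin k → ℕ) (q : ℕ) : factor m q = Pool.Agent.J4H32.MV.fac (Pool.Agent.J4H32.MV.aa m) q := by
  unfold factor Pool.Agent.J4H32.MV.fac
  rw [classes_eq]

/-- Remark: the product over the primes in `expected` converges for distinct positive `m_i`. (There are few vectors with two equal
entries; those of them which belong to `exceptional` are included in the bound of `result`.) -/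
theorem converges {k : ℕ} (m : Fin k → ℕ) (hm : Function.Injective m) (hm1 : ∀ i, 1 ≤ m i) :
    Multipliable (fun q : Nat.Primes => factor m q) := by
  have hinj : Function.Injective (Pool.Agent.J4H32.MV.aa m) := by
    unfold Pool.Agent.J4H32.MV.aa
    rw [Fin.cons_injective_iff]
    refine ⟨?_, hm⟩
    rintro ⟨i, hi⟩
    have := hm1 i
    omega
  refine (Pool.Agent.J4H32.MV.fac_mult _ hinj).congr fun q => ?_
  rw [factor_eq]

/-- For every `k`, `A`, `B` there are arbitrarily large `Y` such that for every `X` with `Y ≤ X ≤ Y ^ ((log log Y) ^ A)` there are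
at most `X ^ k exp (-log X / (log log X) ^ (A + B + 4))` exceptional vectors. -/
theorem result (k A B : ℕ) (Y₀ : ℝ) : ∃ Y : ℝ, Y₀ ≤ Y ∧ ∀ X : ℕ, Y ≤ X → (X : ℝ) ≤ Y ^ (Real.log (Real.log Y) ^ A) →
    ((exceptional k B X).ncard : ℝ) ≤ (X : ℝ) ^ k * Real.exp (-(Real.log X / Real.log (Real.log X) ^ (A + B + 4))) := by
  classical
  obtain ⟨Y, hY, hYX⟩ := Pool.Agent.J4H32.MV.main2 k A B Y₀
  refine ⟨Y, hY, fun X h1 h2 => ?_⟩
  refine le_trans (le_of_eq ?_) (hYX X h1 h2)
  congr 1
  rw [← Set.ncard_coe_finset]
  congr 1
  ext m
  have hcnt : count m X = Pool.Agent.J4H32.MV.Cn2 m X := by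
    unfold count Pool.Agent.J4H32.MV.Cn2
    congr 1
    apply filter_congr
    intro p _
    constructor
    · rintro ⟨h1, h2⟩ j
      refine Fin.cases ?_ (fun i => ?_) j
      · simpa [Pool.Agent.J4H32.MV.aa] using h1
      · simpa [Pool.Agent.J4H32.MV.aa] using h2 i
    · intro h
      refine ⟨?_, fun i => ?_⟩
      · simpa [Pool.Agent.J4H32.MV.aa] using h 0
      · simpa [Pool.Agent.J4H32.MV.aa] using h i.succ
  have hadm : Admissible m ↔ Pool.Agent.J4H32.MV.Ad m := by
    unfold Admissible Pool.Agent.J4H32.MV.Ad
    refine forall_congr' fun q => forall_congr' fun _ => exists_congr fun r => ?_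
    constructor
    · rintro ⟨h1, h2⟩ j
      refine Fin.cases ?_ (fun i => ?_) j
      · simpa [Pool.Agent.J4H32.MV.aa] using h1
      · simpa [Pool.Agent.J4H32.MV.aa] using h2 i
    · intro h
      refine ⟨?_, fun i => ?_⟩
      · simpa [Pool.Agent.J4H32.MV.aa] using h 0
      · simpa [Pool.Agent.J4H32.MV.aa] using h i.succ
  have hexp : expected m X = Pool.Agent.J4H32.MV.SS (Pool.Agent.J4H32.MV.aa m) * X / Real.log X ^ (k + 1) := by
    unfold expected Pool.Agent.J4H32.MV.SS
    congr 3
    funext q
    exact factor_eq m q
  rw [Finset.mem_coe, Finset.mem_filter, Fintype.mem_piFinset, ← hcnt, ← hadm, ← hexp]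
  simp only [exceptional, Set.mem_ofPred_eq, Finset.mem_Icc]

end Pool.Agent.Results.MP_68a45e_nt.AsymptoticFewExceptions
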