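import Mathlib
import Pool.Agent.J4H32.FinX

/-!
# Chen's theorem for almost all prime constellations with shifts from an arbitrary set

A *Chen number* at the scale `N` is an integer `> 1` with at most two prime factors (counted with multiplicity), both
at least `N ^ (1 / 7)`. Let `k ≥ 1`. There are `C`, `E` and `δ > 0`, depending only on `k`, such that the following
holds.

1. (constellations) Let `A` be an ARBITRARY finite set of positive integers. For all but `E |A| ^ (k - δ)` of the
   `(m_1, ..., m_k)` from `A` with distinct coordinates for which `(0, m_1, ..., m_k)` is admissible, there are at least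
   `N / (log N) ^ C` primes `p ≤ N` such that ALL of `p + m_1, ..., p + m_k` are Chen numbers. This holds for every
   large `N` (uniformly in `A ⊆ [1, N / 2]`; e. g. `A` may be fixed while `N` tends to infinity), and for fixed `A` and
   `η > 0`, all but `E |A| ^ (k - δ) / η` of the `(m_1, ..., m_k)` have this property at a set of scales `N` of upper
   density at least `1 - η` in any prescribed sequence of scales, e. g. `N = 2 ^ j`. In particular (`η = 1 / 2`), for all
   but `2 E |A| ^ (k - δ)` of them there are infinitely many primes `p` for which all the `p + m_i` have at most two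
   prime factors.
2. (linear forms) The same for a fixed primitive linear form `f_0` (to be prime) and the `k`-tuples from an arbitrary
   finite set `V` of primitive linear forms (to be Chen numbers), for `f_0`, `V` in a window at the scale `N` and every
   large `N`, and for fixed `f_0` and `V` and most scales.

For `k = 1` this is Chen's theorem (which has no exceptions). For `k ≥ 2` I know of nothing of the kind: for all
constellations one knows a prime and numbers with boundedly many prime factors (e. g. `p, p + 2, p + 6` with `P_2` and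
`P_76`, Heath-Brown and Li), and for a positive proportion of the constellations there are infinitely many `n` for which
all `n + m_i` are primes (Maynard, Pintz). The set `A` here may be sparse, and the constellations all contain the same
position `0`, where the prime is.

The starting file `AlmostPrimePatterns` has lower bounds of the right order outside `C(|A|, k - 1) (log N) ^ B` sets
of `k` shifts; this depends on `N` and says nothing about a fixed constellation, nor about `|A| ≤ (log N) ^ B`. The
starting file `ThinExceptionsOrForms` has exceptional sets of size `|V| ^ (k - δ)` for primes, under a hypothesis.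

Method. For `T` classes of `K` forms each, the Maynard-Tao weights (with the parameters of the coloured theorem with the
constant `18 / 5` of the starting files, `Pool.Agent.Y827`) are combined with a weighted sieve (Richert's weights) in
every class: with the prime at a prescribed form, every class contains a Chen number at `N / (log N) ^ (T K + 1)` of
the `n ≤ N` (`AsmP`, `FinalP`, `LamP`). Hence the exceptional tuples contain no `K × ... × K` grid, and Erdős' theorem
on complete multipartite hypergraphs gives the power saving (`PartP`, `FinX`).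
-/

set_option autoImplicit false

namespace Pool.Agent.Results.MP_68a45e_nt.ChenConstellations

open Finset Filter

/-- `m > 1` has at most two prime factors, counted with multiplicity, and all of them are at least `y` -/
def ChenNumber (y : ℝ) (m : ℕ) : Prop :=
  1 < m ∧ m.primeFactorsList.length ≤ 2 ∧ ∀ q ∈ m.primeFactors, y ≤ q

/-- the linear forms `a x + b`, given by the pairs `(a, b)`, are admissible: no prime divides the product of the forms
at every integer -/
def Admissible {r : ℕ} (f : Fin r → ℤ × ℤ) : Prop :=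
  ∀ p : ℕ, p.Prime → ∃ x : ℤ, ∀ i, ¬ (p : ℤ) ∣ (f i).1 * x + (f i).2

/-- the `k + 1` forms `x, x + m_1, ..., x + m_k` -/
def constellation {k : ℕ} (m : Fin k → ℕ) : Fin (k + 1) → ℤ × ℤ :=
  Fin.cons (1, 0) (fun i => (1, (m i : ℤ)))

open Classical in
/-- the vectors `(m_1, ..., m_k)` of distinct elements of `A` for which `(0, m_1, ..., m_k)` is admissible -/
noncomputable def vectors (k : ℕ) (A : Finset ℕ) : Finset (Fin k → ℕ) :=
  (Fintype.piFinset (fun _ : Fin k => A)).filter
    (fun m => Function.Injective m ∧ Admissible (constellation m))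

open Classical in
/-- the number of the primes `p ≤ N` for which all the `p + m_i` have at most two prime factors, all of them at least
`N ^ (1 / 7)` -/
noncomputable def chenPrimes {k : ℕ} (N : ℕ) (m : Fin k → ℕ) : ℕ :=
  ((Icc 1 N).filter (fun p : ℕ => p.Prime ∧
    ∀ i, ChenNumber ((N : ℝ) ^ (1 / 7 : ℝ)) (p + m i))).card

open Classical in
/-- among the scales `s 0, s 1, ...` those with the property `Q` have upper density at least `1 - η`: for infinitely
many `J` at least `(1 - η) J` of the scales `s 0, ..., s (J - 1)` have it -/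
def MostScales (s : ℕ → ℕ) (η : ℝ) (Q : ℕ → Prop) : Prop :=
  ∃ᶠ J : ℕ in atTop, (1 - η) * J ≤ (((range J).filter (fun j => Q (s j))).card : ℝ)

/-- the value at `n` of the linear form `a x + b`, given by `f = (a, b)`; `0` if it is negative -/
def value (f : ℤ × ℤ) (n : ℕ) : ℕ := (f.1 * (n : ℤ) + f.2).toNat

open Classical in
/-- the `k`-tuples `f` of distinct forms from `V`, different from `f₀`, such that `f₀, f 0, ..., f (k - 1)` is
admissible -/
noncomputable def tuplesWith (k : ℕ) (V : Finset (ℤ × ℤ)) (f₀ : ℤ × ℤ) : Finset (Fin k → ℤ × ℤ) :=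
  (Fintype.piFinset (fun _ : Fin k => V)).filter (fun f => Function.Injective f ∧ (∀ i, f i ≠ f₀) ∧
    Admissible (Fin.cons f₀ f : Fin (k + 1) → ℤ × ℤ))

open Classical in
/-- the number of `n ≤ N` at which the form `f₀` is a prime and all the forms `f j` have at most two prime factors, all
of them at least `N ^ (1 / 7)` -/
noncomputable def primeAndChen {r : ℕ} (N : ℕ) (f₀ : ℤ × ℤ) (f : Fin r → ℤ × ℤ) : ℕ :=
  ((Icc 1 N).filter (fun n : ℕ => (value f₀ n).Prime ∧
    ∀ j, ChenNumber ((N : ℝ) ^ (1 / 7 : ℝ)) (value (f j) n))).card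

/-- the primitive form `f` is in the window at the scale `N`: `0 < |f.1| ≤ A`, `|f.2| ≤ N / 2`, and the values at
`N / 16` and `N / 2` (hence between) are at least `N / 20` -/
def Window (A N : ℕ) (f : ℤ × ℤ) : Prop :=
  f.1 ≠ 0 ∧ |f.1| ≤ A ∧ 2 * |f.2| ≤ N ∧ IsCoprime f.1 f.2 ∧
    (N : ℝ) / 20 ≤ f.1 * ((N : ℝ) / 16) + f.2 ∧ (N : ℝ) / 20 ≤ f.1 * ((N : ℝ) / 2) + f.2

open Classical in
/-- **Chen's theorem for almost all prime constellations.** -/
theorem result (k : ℕ) (hk : 1 ≤ k) :
    -- 1. constellations, with shifts from an arbitrary set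
    (∃ (C : ℕ) (E δ : ℝ), 0 < E ∧ 0 < δ ∧
      -- at every large scale
      (∀ᶠ N : ℕ in atTop, ∀ A : Finset ℕ, (∀ a ∈ A, 0 < a ∧ 2 * a ≤ N) →
        (((vectors k A).filter (fun m =>
          ¬ (N : ℝ) / (Real.log N) ^ C ≤ (chenPrimes N m : ℝ))).card : ℝ) ≤
          E * (A.card : ℝ) ^ ((k : ℝ) - δ)) ∧
      -- for a fixed set, at most scales
      (∀ A : Finset ℕ, (∀ a ∈ A, 0 < a) → ∀ s : ℕ → ℕ, StrictMono s → ∀ η : ℝ, 0 < η →
        (((vectors k A).filter (fun m => ¬ MostScales s η (fun N =>
          (N : ℝ) / (Real.log N) ^ C ≤ (chenPrimes N m : ℝ)))).card : ℝ) ≤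
          E * (A.card : ℝ) ^ ((k : ℝ) - δ) / η)) ∧
    -- 2. linear forms
    (∃ (C : ℕ) (E δ : ℝ), 0 < E ∧ 0 < δ ∧
      -- at every large scale
      (∀ A : ℕ, ∀ᶠ N : ℕ in atTop, ∀ V : Finset (ℤ × ℤ), (∀ f ∈ V, Window A N f) →
        ∀ f₀ : ℤ × ℤ, Window A N f₀ →
        (((tuplesWith k V f₀).filter (fun f =>
          ¬ (N : ℝ) / (Real.log N) ^ C ≤ (primeAndChen N f₀ f : ℝ))).card : ℝ) ≤
          E * (V.card : ℝ) ^ ((k : ℝ) - δ)) ∧
      -- for a fixed form and a fixed set, at most scales
      (∀ V : Finset (ℤ × ℤ), (∀ f ∈ V, 0 < f.1 ∧ IsCoprime f.1 f.2) →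
        ∀ f₀ : ℤ × ℤ, 0 < f₀.1 → IsCoprime f₀.1 f₀.2 →
        ∀ s : ℕ → ℕ, StrictMono s → ∀ η : ℝ, 0 < η →
        (((tuplesWith k V f₀).filter (fun f => ¬ MostScales s η (fun N =>
          (N : ℝ) / (Real.log N) ^ C ≤ (primeAndChen N f₀ f : ℝ)))).card : ℝ) ≤
          E * (V.card : ℝ) ^ ((k : ℝ) - δ) / η)) := by
  have hmon : ∀ (s : ℕ → ℕ) (η : ℝ) (P Q : ℕ → Prop), (∀ N, P N → Q N) →
      Pool.Agent.J4H32.Oft s η P → MostScales s η Q := by
    intro s η P Q hPQ h
    refine h.mono fun J hJ => hJ.trans ?_
    rw [Nat.cast_le]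
    apply card_le_card
    intro j hj
    rw [mem_filter] at hj ⊢
    exact ⟨hj.1, hPQ _ hj.2⟩
  have h := Pool.Agent.J4H32.allB k hk
  obtain ⟨C, E, δ, hE, hδ, -, h1, h2⟩ := h
  refine ⟨?_, ?_⟩
  · obtain ⟨em, hem⟩ : ∃ em : (Fin k → ℕ) → (Fin k → ℤ × ℤ), ∀ m i, em m i = (1, (m i : ℤ)) :=
      ⟨fun m i => (1, (m i : ℤ)), fun _ _ => rfl⟩
    obtain ⟨VA, hVA⟩ : ∃ VA : Finset ℕ → Finset (ℤ × ℤ), ∀ A, VA A =
      A.image (fun a : ℕ => ((1 : ℤ), (a : ℤ))) := ⟨fun A => A.image (fun a : ℕ => ((1 : ℤ), (a : ℤ))),
        fun _ => rfl⟩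
    have hinj : Function.Injective (fun a : ℕ => ((1 : ℤ), (a : ℤ))) := by
      intro a b hab
      simpa using hab
    have hVc : ∀ A, (VA A).card = A.card := by
      intro A
      rw [hVA]
      exact card_image_of_injective _ hinj
    have hcount : ∀ (N : ℕ) (m : Fin k → ℕ), Pool.Agent.J4H32.TC N (1, 0) (em m) ≤ chenPrimes N m := by
      intro N m
      unfold Pool.Agent.J4H32.TC chenPrimes
      apply card_le_card
      intro n hn
      rw [mem_filter] at hn ⊢
      obtain ⟨hn1, hn2, hn3⟩ := hn
      refine ⟨hn1, ?_, fun i => ?_⟩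
      · have e : Pool.Agent.J4H32.vf ((1 : ℤ), (0 : ℤ)) n = n := by
          unfold Pool.Agent.J4H32.vf
          simp
        rw [e] at hn2
        exact hn2
      · have e : Pool.Agent.J4H32.vf (em m i) n = n + m i := by
          rw [hem]
          unfold Pool.Agent.J4H32.vf
          simp only [one_mul]
          have : ((n : ℤ) + (m i : ℤ)) = ((n + m i : ℕ) : ℤ) := by push_cast; ring
          rw [this, Int.toNat_natCast]
        have h3 := hn3 i
        rw [e] at h3
        exact h3
    -- the general transfer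
    have htr : ∀ (A : Finset ℕ), (∀ a ∈ A, 0 < a) → ∀ (B : (Fin k → ℕ) → Prop)
        (B' : (Fin k → ℤ × ℤ) → Prop), (∀ m, B m → B' (em m)) →
        ((vectors k A).filter B).card ≤ ((Fintype.piFinset (fun _ : Fin k => VA A)).filter
          (fun f => Function.Injective f ∧ (∀ i, f i ≠ ((1 : ℤ), (0 : ℤ))) ∧
          Pool.Agent.J4H32.AdmF (Fin.cons ((1 : ℤ), (0 : ℤ)) f : Fin (k + 1) → ℤ × ℤ) ∧ B' f)).card := by
      intro A hA B B' hB
      apply card_le_card_of_injOn em
      · intro m hm
        rw [mem_coe, mem_filter, vectors, mem_filter, Fintype.mem_piFinset] at hm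
        obtain ⟨⟨hm1, hm2, hm3⟩, hm4⟩ := hm
        rw [mem_coe, mem_filter, Fintype.mem_piFinset]
        refine ⟨fun i => ?_, ?_, fun i => ?_, ?_, hB m hm4⟩
        · rw [hem, hVA]
          exact mem_image_of_mem (fun a : ℕ => ((1 : ℤ), (a : ℤ))) (hm1 i)
        · intro i j hij
          rw [hem, hem] at hij
          exact hm2 (hinj hij)
        · rw [hem]
          intro h3
          have h4 : (m i : ℤ) = 0 := (Prod.mk.inj h3).2
          have h5 := hA _ (hm1 i)
          omega
        · have e : em m = fun i => (1, (m i : ℤ)) := funext fun i => hem m i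
          rw [e]
          exact hm3
      · intro m _ m' _ hmm
        funext i
        have h3 := congrFun hmm i
        rw [hem, hem] at h3
        exact hinj h3
    refine ⟨C, E, δ, hE, hδ, ?_, ?_⟩
    · filter_upwards [h1 1, eventually_ge_atTop 1] with N hN hN1 A hA
      have hN1' : (1 : ℝ) ≤ N := by exact_mod_cast hN1
      have hW : ∀ a : ℕ, 2 * a ≤ N → Pool.Agent.J4H32.Win 1 N ((1 : ℤ), (a : ℤ)) := by
        intro a ha
        refine ⟨one_ne_zero, by simp, ?_, isCoprime_one_left, ?_, ?_⟩
        · show 2 * |(a : ℤ)| ≤ (N : ℤ)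
          rw [abs_of_nonneg (Nat.cast_nonneg a : (0 : ℤ) ≤ (a : ℤ))]
          exact_mod_cast ha
        · have h3 : (0 : ℝ) ≤ ((a : ℤ) : ℝ) := by positivity
          simp only [Int.cast_one]
          linarith
        · have h3 : (0 : ℝ) ≤ ((a : ℤ) : ℝ) := by positivity
          simp only [Int.cast_one]
          linarith
      have h3 := hN (VA A) (fun f hf => by
        rw [hVA] at hf
        obtain ⟨a, ha, rfl⟩ := mem_image.1 hf
        exact hW a (hA a ha).2) ((1 : ℤ), (0 : ℤ)) (by
          have := hW 0 (by omega)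
          simpa using this)
      rw [hVc] at h3
      refine le_trans ?_ h3
      rw [Nat.cast_le]
      have h4 := htr A (fun a ha => (hA a ha).1)
        (fun m => ¬ (N : ℝ) / (Real.log N) ^ C ≤ (chenPrimes N m : ℝ))
        (fun f => ¬ (N : ℝ) / (Real.log N) ^ C ≤
          (Pool.Agent.J4H32.TC N ((1 : ℤ), (0 : ℤ)) f : ℝ))
        (fun m hm h4 => hm (h4.trans (Nat.cast_le.2 (hcount N m))))
      refine le_trans (le_of_eq ?_) (h4.trans (le_of_eq ?_))
      · congr 1
        ext m
        simp only [mem_filter]
      · congr 1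
        ext m
        simp only [mem_filter]
    · intro A hA s hs η hη
      have h3 := h2 (VA A) (fun f hf => by
        rw [hVA] at hf
        obtain ⟨a, ha, rfl⟩ := mem_image.1 hf
        exact ⟨one_pos, isCoprime_one_left⟩) ((1 : ℤ), (0 : ℤ)) one_pos isCoprime_one_left s hs η hη
      rw [hVc] at h3
      refine le_trans ?_ h3
      rw [Nat.cast_le]
      have h4 := htr A hA
        (fun m => ¬ MostScales s η (fun N => (N : ℝ) / (Real.log N) ^ C ≤ (chenPrimes N m : ℝ)))
        (fun f => ¬ Pool.Agent.J4H32.Oft s η (fun N =>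
          (N : ℝ) / (Real.log N) ^ C ≤ (Pool.Agent.J4H32.TC N ((1 : ℤ), (0 : ℤ)) f : ℝ)))
        (fun m hm h4 => hm (hmon s η _ _ (fun N h5 => h5.trans (Nat.cast_le.2 (hcount N m))) h4))
      refine le_trans (le_of_eq ?_) (h4.trans (le_of_eq ?_))
      · congr 1
        ext m
        simp only [mem_filter]
      · congr 1
        ext m
        simp only [mem_filter]
  · refine ⟨C, E, δ, hE, hδ, ?_, ?_⟩
    · intro A
      filter_upwards [h1 A] with N hN V hV f₀ hf₀
      refine le_trans ?_ (hN V hV f₀ hf₀)
      rw [Nat.cast_le]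
      apply card_le_card
      intro m hm
      rw [mem_filter, tuplesWith, mem_filter] at hm
      rw [mem_filter]
      exact ⟨hm.1.1, hm.1.2.1, hm.1.2.2.1, hm.1.2.2.2, hm.2⟩
    · intro V hV f₀ hf₀ hf₀' s hs η hη
      refine le_trans ?_ (h2 V hV f₀ hf₀ hf₀' s hs η hη)
      rw [Nat.cast_le]
      apply card_le_card
      intro m hm
      rw [mem_filter, tuplesWith, mem_filter] at hm
      rw [mem_filter]
      exact ⟨hm.1.1, hm.1.2.1, hm.1.2.2.1, hm.1.2.2.2, hm.2⟩

end Pool.Agent.Results.MP_68a45e_nt.ChenConstellations
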