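import Pool.Agent.J4H32.MV.Main

/-!
# Prime constellations for all but `X ^ (k - o (1))` vectors of shifts, for every large `X`

Method (helper32, with parts by helpers 6, 19, 42, 45, 57, 68, 81): the circle method of Montgomery and Vaughan in residue
classes modulo a primorial `W` (helper81, `J4H81/PT`: zero-free regions, repulsion by an exceptional zero, large sieve), in
which the primes have a simple model `g`, a truncated singular series. A product of `k + 1` shifted primes is compared with
the product of the models by telescoping; each term is a Fourier coefficient in one of the shifts, small on the major arcs by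
the energy bound and outside few shifts on the minor arcs by Bessel's inequality. The correlations of the model are computed
for all shifts whose differences have few prime factors above `w`, which fails only for a power-like small proportion
(Rankin's method).
-/

set_option autoImplicit false

namespace Pool.Agent.Results.MP_68a45e_nt.FewExceptionsEveryX

open Finset Filter

/-- The number of the primes `p ≤ X` for which all the `p + m_i` are prime. -/
noncomputable def count {k : ℕ} (m : Fin k → ℕ) (X : ℕ) : ℕ :=
  ((Icc 1 X).filter (fun p => p.Prime ∧ ∀ i, (p + m i).Prime)).card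

/-- The constellation `p, p + m_1, ..., p + m_k` is admissible: for every prime `q` there is an integer `r` such that `q`
divides none of `r, r + m_1, ..., r + m_k`. -/
def Admissible {k : ℕ} (m : Fin k → ℕ) : Prop := ∀ q : ℕ, q.Prime → ∃ r : ℕ, ¬ q ∣ r ∧ ∀ i, ¬ q ∣ r + m i

/-- The exceptional vectors: admissible, with entries in `[1, X]` and fewer than `X exp (-log X / (log log X) ^ 4)` primes
`p ≤ X` with all `p + m_i` prime. -/
def exceptional (k X : ℕ) : Set (Fin k → ℕ) :=
  {m | (∀ i, 1 ≤ m i ∧ m i ≤ X) ∧ Admissible m ∧
    (count m X : ℝ) < X * Real.exp (-(Real.log X / Real.log (Real.log X) ^ 4))}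

/-- For every `k` and every large `X` there are at most `X ^ k exp (-log X / (log log X) ^ 13)` exceptional vectors. -/
theorem result (k : ℕ) : ∀ᶠ X : ℕ in atTop,
    ((exceptional k X).ncard : ℝ) ≤ (X : ℝ) ^ k * Real.exp (-(Real.log X / Real.log (Real.log X) ^ 13)) := by
  classical
  filter_upwards [Pool.Agent.J4H32.MV.main k] with X hX
  refine le_trans (le_of_eq ?_) hX
  congr 1
  rw [← Set.ncard_coe_finset]
  congr 1
  ext m
  have hcnt : count m X = Pool.Agent.J4H32.MV.Cn m X := by
    unfold count Pool.Agent.J4H32.MV.Cn
    congr 1
    apply filter_congr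
    intro p _
    constructor
    · rintro ⟨h1, h2⟩ j
      refine Fin.cases ?_ (fun i => ?_) j
      · simpa [Pool.Agent.J4H32.MV.aa] using h1
      · simpa [Pool.Agent.J4H32.MV.aa] using h2 i
    · intro h
      refine ⟨?_, fun i => ?_⟩
      · simpa [Pool.Agent.J4H32.MV.aa] using h 0
      · simpa [Pool.Agent.J4H32.MV.aa] using h i.succ
  have hadm : Admissible m ↔ Pool.Agent.J4H32.MV.Ad m := by
    unfold Admissible Pool.Agent.J4H32.MV.Ad
    refine forall_congr' fun q => forall_congr' fun _ => exists_congr fun r => ?_
    constructor
    · rintro ⟨h1, h2⟩ j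
      refine Fin.cases ?_ (fun i => ?_) j
      · simpa [Pool.Agent.J4H32.MV.aa] using h1
      · simpa [Pool.Agent.J4H32.MV.aa] using h2 i
    · intro h
      refine ⟨?_, fun i => ?_⟩
      · simpa [Pool.Agent.J4H32.MV.aa] using h 0
      · simpa [Pool.Agent.J4H32.MV.aa] using h i.succ
  rw [Finset.mem_coe, Finset.mem_filter, Fintype.mem_piFinset, ← hcnt, ← hadm]
  simp only [exceptional, Set.mem_ofPred_eq, Finset.mem_Icc]

end Pool.Agent.Results.MP_68a45e_nt.FewExceptionsEveryX
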