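import Pool.Agent.J4H81.HL.SC

/-!
# The Hardy-Littlewood asymptotic formula on average for constellations of up to `log X / (log log X) ^ 4` primes

Method (helper81, with parts by helper57 and helper69): let `l` be a scale for which the L-functions of conductor up to `exp l`
have no zeros within `c / l` of the line `σ = 1` (there are arbitrarily large such `l`), `W` the product of the primes up to
`l / 1000`, `X = exp (A l log l)` and `y ≥ X`. In most pairs of residue classes modulo `W` and most short intervals the primes
(cut at their expected number) have Fourier coefficients which are small off the major arcs with denominators dividing `W`,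
which gives a lower bound of the right size, in the mean over all `k`-tuples, for the number of solutions (`HL/EF` to `HL/LS`).
The singular series is approximated in mean by its factors at the primes up to `l / 1000` (second moment of the factors at the
primes up to `l ^ 6` over the lifts of a residue vector, `J4H69/HL/Sing`, and the tail, `J4H57/HL/Tail`), and the total number
of the solutions is known from the prime number theorem with remainder (`J4H57/HL/Pnt`): the lower bound in mean is therefore
an asymptotic formula in mean.
-/

set_option autoImplicit false

namespace Pool.Agent.Results.MP_68a45e_nt.GrowingConstellationsOnAverage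

open Finset

/-- The number of the integers `1 ≤ n ≤ y` for which all the `n + a`, `a ∈ A`, are prime. -/
def count (y : ℕ) (A : Finset ℕ) : ℕ := ((Icc 1 y).filter (fun n => ∀ a ∈ A, (n + a).Prime)).card

/-- The factor at `p` of the singular series of `A`: `(1 - ν / p) / (1 - 1 / p) ^ |A|`, where `ν` is the number of the residue
classes modulo `p` which contain an element of `A`. -/
noncomputable def factor (A : Finset ℕ) (p : ℕ) : ℝ := (1 - ((A.image (· % p)).card : ℝ) / p) / (1 - 1 / (p : ℝ)) ^ A.card

/-- The singular series of `A`, the product of the factors at all primes `p` (it converges, see `multipliable_factor`). -/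
noncomputable def singularSeries (A : Finset ℕ) : ℝ := ∏' p : Nat.Primes, factor A p

theorem multipliable_factor (A : Finset ℕ) : Multipliable (fun p : Nat.Primes => factor A p) :=
  Pool.Agent.J4H57.HL.multipliable_loc A

/-- There are a constant `C` and arbitrarily large `X` such that for all integers `y` with `X ≤ y ≤ exp ((log X) ^ (3 / 2))` and
all `1 ≤ k ≤ log X / (log log X) ^ 4` the following holds: in the mean over all sets `A` of `k` integers `0 ≤ a ≤ y` the number
of the `1 ≤ n ≤ y` with all `n + a` prime differs from `singularSeries A * y / (log y) ^ k` by at most
`C (log log X) (k / log X) ^ (1 / 2) y / (log y) ^ k`. -/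
theorem result : ∃ C : ℝ, 0 < C ∧ ∀ X₀ : ℝ, ∃ X : ℝ, X₀ ≤ X ∧ 3 ≤ X ∧
    ∀ y : ℕ, X ≤ y → Real.log y ≤ Real.log X ^ (3 / 2 : ℝ) →
    ∀ k : ℕ, 1 ≤ k → (k : ℝ) ≤ Real.log X / Real.log (Real.log X) ^ 4 →
      ∑ A ∈ (range (y + 1)).powersetCard k, |(count y A : ℝ) - singularSeries A * (y / Real.log y ^ k)| ≤
        C * (Real.log (Real.log X) * Real.sqrt (k / Real.log X)) * (((y + 1).choose k : ℝ) * (y / Real.log y ^ k)) :=
  Pool.Agent.J4H81.HL.main2

end Pool.Agent.Results.MP_68a45e_nt.GrowingConstellationsOnAverage
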